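import Mathlib
import Pool.Prelude.Def_F_c31e40fa
import Pool.Agent.H206.LimH

/-!
# Infinitely renormalizable parameters with prescribed limits of the renormalizations

Let `M` be the Mandelbrot set and `IR` the set of its infinitely renormalizable parameters.

**(A) Parameters in infinitely many perfect small copies.** A small copy of `M` is perfect up to `ε` if
on the disc of radius `1 / ε` the renormalised family is `ε`-close to `z ^ 2 + κ`, and the component,
the copy, the domains of renormalization and the basin are those of `M` up to `ε`. Let `E` be the set of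
the parameters which are in copies, perfect up to `1 / 252`, of infinitely many periods. Then `E` is
contained in `IR` and in the boundary of `M`, the copies containing a point of `E` have only this point
in common, and `E` has measure zero.

**(B) Prescribed limits.** Let `a 0, a 1, ...` be any sequence of boundary points of `M`. In every disc
about a boundary point of `M` there are uncountably many boundary points `x` which are intersections of
nested small copies, the `k`-th of which is perfect up to `1 / (k + 1)` and has `x` at the coordinate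
`a k` up to `1 / (k + 1)`, such that `{x}` is a component of `IR`, `M` is locally connected at `x`,
all impressions which contain `x` are `{x}`, `M` has lower density zero at `x`, and `M` is flat at `x`.

**(C)** In particular every nonempty closed subset `F` of the boundary of `M` is the limit set of the
renormalizations of uncountably many such parameters `x` in every disc about a boundary point: the limits
of the renormalised maps are the maps `z ^ 2 + κ` with `κ ∈ F`.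

Method. (A) Two such copies of different periods with a common point have scales with quotient at most
`1 / 2`, since the centre of the first one is not in the zone of the second one; the hyperbolic
components give points of `M` which are not in `E` in a definite proportion. (B) Let a boundary point `p`
be given. Near `p` there are perfect copies of `M`, of which we take one; a family which is close to
`z ^ 2 + κ` has a copy nearby (`Pool.Agent.H206.shadow`), and near its tip a parameter which is strictly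
preperiodic (`Pool.Agent.H206.tip`). Near this parameter there are perfect copies in the given one
(`Pool.Agent.H206.step2`), the impressions are small (N253), and the area is small (Y298).
-/

set_option autoImplicit false

open MeasureTheory Filter Metric Topology Set

namespace Pool.Agent.Results.MP_b511e9_an.PrescribedLimits

open N62a1eb23
open Pool.Agent.H713R2 (IsExteriorMap)

/-- The polynomial `z ^ d + c`. -/
def f (d : ℕ) (c : ℂ) : ℂ → ℂ := fun z => z ^ d + c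

/-- The critical orbit as a function of the parameter. -/
def crit (d n : ℕ) (c : ℂ) : ℂ := (f d c)^[n] 0

/-- The parameters with attracting cycles. -/
def hyperbolic (d : ℕ) : Set ℂ := {c | ∃ m z, IsAttractingCycle (f d c) m z}

/-- The component of the interior of the Multibrot set which contains `c`. -/
def component (d : ℕ) (c : ℂ) : Set ℂ := connectedComponentIn (interior (multibrotSet d)) c

/-- The renormalised map: `f ^ n` at the parameter `c + l κ`, in the coordinate `z / m`. -/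
noncomputable def ren (d n : ℕ) (c l m κ : ℂ) : ℂ → ℂ :=
  fun z => (f d (c + l * κ))^[n] (m * z) / m

/-- The scales: `l` for the parameters and `m` for the dynamics. -/
def Scales (d n : ℕ) (c l m : ℂ) : Prop :=
  l ≠ 0 ∧ m ≠ 0 ∧ m ^ (d - 1) * deriv ((f d c)^[n - 1]) c = 1 ∧ l * deriv (crit d n) c = m

/-- In the disc of radius `S` the renormalised family is close, up to the relative error `δ`, to the
family `z ^ d + κ`, and the orbits do not return earlier to the disc of radius `S |m| / 6`. -/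
def Zone (d n : ℕ) (c l m : ℂ) (S δ : ℝ) : Prop :=
  ∀ κ z : ℂ, ‖κ‖ ≤ S → ‖z‖ ^ d ≤ S →
    ‖ren d n c l m κ z - (z ^ d + κ)‖ ≤ δ * (‖κ‖ + ‖z‖ ^ d) ∧
    ‖deriv (ren d n c l m κ) z - d * z ^ (d - 1)‖ ≤ δ * (d * ‖z‖ ^ (d - 1)) ∧
    ∀ j : ℕ, 0 < j → j < n → S * ‖m‖ / 6 ≤ ‖(f d (c + l * κ))^[j] (m * z)‖

/-- The component of `c` is close to the copy of the main component
`{w - w ^ d : d |w| ^ (d - 1) < 1}`, in which `w` is the attracting fixed point, and the attracting
periodic points and their multipliers are close to `w` and to `d w ^ (d - 1)`. -/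
def Shape (d n : ℕ) (c l m : ℂ) (τ : ℝ) : Prop :=
  (∀ w : ℂ, d * ‖w‖ ^ (d - 1) ≤ 1 - Real.exp (-(τ / 2)) → c + l * (w - w ^ d) ∈ component d c ∧
    ∃ z : ℂ, ‖z - w‖ ≤ Real.exp (-(τ / 2)) ∧ (f d (c + l * (w - w ^ d)))^[n] (m * z) = m * z ∧
      ‖deriv ((f d (c + l * (w - w ^ d)))^[n]) (m * z)‖ < 1 ∧
      ‖deriv ((f d (c + l * (w - w ^ d)))^[n]) (m * z) - d * w ^ (d - 1)‖ ≤ Real.exp (-(τ / 2))) ∧
  ∀ b ∈ component d c, ∃ w : ℂ, d * ‖w‖ ^ (d - 1) < 1 ∧
    ‖b - (c + l * (w - w ^ d))‖ ≤ ‖l‖ * Real.exp (-τ)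

/-- The small copy of the Multibrot set, magnified by `1 / l`: the parameters `κ` for which the
orbit of `0` under `f_(c + l κ) ^ n` stays in the disc of radius `ρ |m|`. -/
def copy (d n : ℕ) (c l m : ℂ) (ρ : ℝ) : Set ℂ :=
  {κ | ‖κ‖ ≤ ρ ^ d ∧ ∀ j : ℕ, ‖(f d (c + l * κ))^[n * j] 0‖ ≤ ρ * ‖m‖}

/-- The small copy is close to the Multibrot set, and isolated. -/
def Copies (d n : ℕ) (c l m : ℂ) (τ ε : ℝ) : Prop :=
  (∀ ρ : ℝ, 3 ≤ ρ → ρ ^ (2 * d) ≤ Real.exp τ → copy d n c l m ρ = copy d n c l m 3) ∧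
  copy d n c l m 3 ⊆ thickening ε (multibrotSet d) ∧
  closure (hyperbolic d) ⊆
    thickening ε {κ | κ ∈ copy d n c l m 3 ∧ c + l * κ ∈ hyperbolic d} ∧
  ∀ κ : ℂ, ball κ ε ⊆ hyperbolic d → κ ∈ copy d n c l m 3 ∧ c + l * κ ∈ hyperbolic d

/-- `h` is a proper map of degree at most `d` of `U` onto the larger set `V`, with the only critical
point `0`. -/
def PolynomialLike (d : ℕ) (h : ℂ → ℂ) (U V : Set ℂ) : Prop :=
  IsOpen U ∧ Bornology.IsBounded U ∧ closure U ⊆ V ∧ h '' U = V ∧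
    (∀ K ⊆ V, IsCompact K → IsCompact {z | z ∈ U ∧ h z ∈ K}) ∧
    (∀ w ∈ V, {z | z ∈ U ∧ h z = w}.encard ≤ d) ∧ ∀ z ∈ U, deriv h z = 0 → z = 0

/-- The maps `f_(c + l κ) ^ n` are polynomial-like, of a neighbourhood of `0` in the disc of radius
`(2 ρ) ^ (1 / d) |m|` onto the disc of radius `ρ |m|`. -/
def RenormalizableNear (d n : ℕ) (c l m : ℂ) (τ : ℝ) : Prop :=
  ∀ ρ : ℝ, 4 ≤ ρ → ρ ^ (2 * d) ≤ Real.exp τ → ∀ κ : ℂ, ‖κ‖ ≤ ρ - 1 →
    ∃ U : Set ℂ, (0 : ℂ) ∈ U ∧ (∀ z ∈ U, ‖z‖ ^ d ≤ 2 * ρ * ‖m‖ ^ d) ∧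
      PolynomialLike d ((f d (c + l * κ))^[n]) U (ball 0 (ρ * ‖m‖))

/-- The component, containing `0`, of the basin of the superattracting point `0` of `f_c ^ n`. -/
def basin (d n : ℕ) (c : ℂ) : Set ℂ :=
  connectedComponentIn {z | Tendsto (fun j : ℕ => (f d c)^[n * j] z) atTop (𝓝 0)} 0

/-- This component is close to a round disc. -/
def Round (d n : ℕ) (c m : ℂ) (τ : ℝ) : Prop :=
  ball 0 ((1 - Real.exp (-τ)) * ‖m‖) ⊆ basin d n c ∧
    basin d n c ⊆ ball 0 ((1 + Real.exp (-τ)) * ‖m‖)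

/-- The small copy of centre `c`, period `n` and scales `l` and `m` is perfect up to `ε`. -/
def Perfect (d : ℕ) (ε : ℝ) (n : ℕ) (c l m : ℂ) : Prop :=
  0 < n ∧ Function.minimalPeriod (f d c) 0 = n ∧ Scales d n c l m ∧
    (∃ S : ℝ, 1 / ε ≤ S ∧ Zone d n c l m S ε) ∧
    ∃ τ : ℝ, 1 / ε ≤ τ ∧ Shape d n c l m τ ∧ Copies d n c l m τ ε ∧
      RenormalizableNear d n c l m τ ∧ Round d n c m τ

/-- The small copy in the parameter plane. -/
def smallCopy (d n : ℕ) (c l m : ℂ) : Set ℂ := {x | (x - c) / l ∈ copy d n c l m 3}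

/-- `h` is quadratic-like: a proper map of degree two of the bounded open set `U` onto the connected
open set `V`, which contains the closure of `U`; the only critical point in the closure of `U` is `0`,
and it is the only preimage of the critical value. -/
def QuadraticLike (h : ℂ → ℂ) (U V : Set ℂ) : Prop :=
  IsOpen U ∧ Bornology.IsBounded U ∧ IsOpen V ∧ IsPreconnected V ∧ closure U ⊆ V ∧ h '' U = V ∧
    (∀ K ⊆ V, IsCompact K → IsCompact {z | z ∈ U ∧ h z ∈ K}) ∧
    (∀ w ∈ V, {z | z ∈ U ∧ h z = w}.encard ≤ 2) ∧ (∀ z ∈ closure U, deriv h z = 0 → z = 0) ∧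
    ∀ z ∈ U, h z = h 0 → z = 0

/-- `z ^ 2 + c` is renormalizable of period `p`. -/
def Renormalizable (c : ℂ) (p : ℕ) : Prop :=
  2 ≤ p ∧ ∃ U V : Set ℂ, QuadraticLike ((f 2 c)^[p]) U V ∧ ∀ j : ℕ, (f 2 c)^[p * j] 0 ∈ U

/-- The infinitely renormalizable parameters. -/
def IR : Set ℂ := {c | {p : ℕ | Renormalizable c p}.Infinite}

/-- The parameters in small copies, perfect up to `1 / 252`, of infinitely many periods. -/
def Often : Set ℂ :=
  {x | {n : ℕ | ∃ c l m : ℂ, Perfect 2 (1 / 252) n c l m ∧ x ∈ smallCopy 2 n c l m}.Infinite}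

/-- The Mandelbrot set is locally connected at `x`: any two points of it in a small disc about `x` are
in a continuum in it of small size. -/
def LocallyConnectedAt (x : ℂ) : Prop :=
  ∀ η : ℝ, 0 < η → ∃ δ : ℝ, 0 < δ ∧ ∀ y ∈ multibrotSet 2, ∀ z ∈ multibrotSet 2,
    ‖y - x‖ < δ → ‖z - x‖ < δ → ∃ S : Set ℂ, S ⊆ multibrotSet 2 ∧ IsCompact S ∧ IsConnected S ∧
      y ∈ S ∧ z ∈ S ∧ S ⊆ ball x η

/-- The impression of `ζ`: all limits of `ψ (w n)` for sequences `w n → ζ` with `|w n| > 1`. -/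
def impression (ψ : ℂ → ℂ) (ζ : ℂ) : Set ℂ := {c | MapClusterPt c (𝓝[{w | 1 < ‖w‖}] ζ) ψ}

/-- `x` is in some impression, and all impressions which contain `x` are trivial. -/
def TrivialImpressions (ψ : ℂ → ℂ) (x : ℂ) : Prop :=
  (∃ ζ : ℂ, ‖ζ‖ = 1 ∧ x ∈ impression ψ ζ) ∧
    ∀ ζ : ℂ, ‖ζ‖ = 1 → x ∈ impression ψ ζ → impression ψ ζ = {x}

/-- The angles `t ∈ (0, 2π]` of the external rays landing at distance less than `r` from `c₀`. Up to
the factor `2π` its length is the harmonic measure (from infinity) of the disc of radius `r`. -/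
def angles (ψ : ℂ → ℂ) (c₀ : ℂ) (r : ℝ) : Set ℝ :=
  {t | t ∈ Ioc 0 (2 * Real.pi) ∧ ∃ ζ ∈ ball c₀ r,
    Tendsto (fun ρ : ℝ => ψ (ρ * Complex.exp (t * Complex.I))) (𝓝[>] 1) (𝓝 ζ)}

/-- The harmonic measure, up to the factor `2π`. -/
noncomputable def harm (ψ : ℂ → ℂ) (c₀ : ℂ) (r : ℝ) : ℝ := (volume (angles ψ c₀ r)).toReal

/-- The maximum of Green's function of the Mandelbrot set over a disc: Green's function is
`log ‖w‖` at the point `ψ w`. -/
noncomputable def green (ψ : ℂ → ℂ) (c₀ : ℂ) (r : ℝ) : ℝ :=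
  sSup {x | ∃ w : ℂ, 1 < ‖w‖ ∧ ‖ψ w - c₀‖ ≤ r ∧ Real.log ‖w‖ = x}

/-- Flatness: the harmonic measure and Green's function of the discs of radius `r` decay faster than
every power of `r`, and the derivatives of the critical orbit with respect to the parameter grow
subexponentially. -/
def Flat (ψ : ℂ → ℂ) (c₀ : ℂ) : Prop :=
  (∀ κ : ℝ, 0 < κ → ∀ᶠ r : ℝ in 𝓝[>] 0, harm ψ c₀ r < r ^ κ ∧ green ψ c₀ r < r ^ κ) ∧
  ∀ a : ℝ, 0 < a → ∀ᶠ n : ℕ in atTop, ‖deriv (crit 2 n) c₀‖ < Real.exp (a * n)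

/-- The Mandelbrot set has lower density zero at `x`. -/
def LowerDensityZero (x : ℂ) : Prop :=
  ∀ η : ℝ, 0 < η → ∃ ρ : ℝ, 0 < ρ ∧ ρ ≤ η ∧
    volume (multibrotSet 2 ∩ ball x ρ) ≤ ENNReal.ofReal (η * ρ ^ 2)

/-- The properties of the parameter `x`: it is an infinitely renormalizable boundary point, it is a
component of the set of the infinitely renormalizable parameters, the Mandelbrot set is locally
connected and flat and has lower density zero at `x`, and all impressions at `x` are trivial. -/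
def Good (ψ : ℂ → ℂ) (x : ℂ) : Prop :=
  x ∈ IR ∧ x ∈ frontier (multibrotSet 2) ∧
    (∀ Γ : Set ℂ, Γ ⊆ IR → IsPreconnected Γ → x ∈ Γ → Γ = {x}) ∧
    LocallyConnectedAt x ∧ TrivialImpressions ψ x ∧ LowerDensityZero x ∧ Flat ψ x

/-- `x` is the limit of a tower of asymptotically perfect small copies. -/
def Tower (x : ℂ) (n : ℕ → ℕ) (c l m : ℕ → ℂ) : Prop :=
  (∀ k, n k ∣ n (k + 1) ∧ n k < n (k + 1)) ∧
    (∀ k : ℕ, Perfect 2 (1 / ((k : ℝ) + 1)) (n k) (c k) (l k) (m k)) ∧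
    (∀ k, x ∈ smallCopy 2 (n k) (c k) (l k) (m k) ∧
      smallCopy 2 (n (k + 1)) (c (k + 1)) (l (k + 1)) (m (k + 1)) ⊆
        smallCopy 2 (n k) (c k) (l k) (m k)) ∧
    (⋂ k, smallCopy 2 (n k) (c k) (l k) (m k)) = {x}

theorem eps_eq : (1 : ℝ) / 252 = 1 / (4 * (4 + 3 ^ 2 + ((2 : ℕ) : ℝ) * 5 ^ 2)) := by norm_num

theorem quad_of_pl {h : ℂ → ℂ} {U V : Set ℂ} (H : Pool.Agent.H206.PL 2 h U V) :
    QuadraticLike h U V :=
  ⟨H.oU, H.bU, H.oV, H.pV, H.cl, H.im, H.prop, H.deg, H.crit, H.tot⟩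

theorem pl_of_quad {h : ℂ → ℂ} {U V : Set ℂ} (H : QuadraticLike h U V) :
    Pool.Agent.H206.PL 2 h U V := by
  obtain ⟨h1, h2, h3, h4, h5, h6, h7, h8, h9, h10⟩ := H
  exact ⟨h1, h2, h3, h4, h5, h6, h7, h8, h9, h10⟩

theorem big_of_IR {c : ℂ} (h : c ∈ IR) : c ∈ Pool.Agent.H206.BigRen 2 := by
  have h1 : ∀ p : ℕ, Renormalizable c p → Pool.Agent.N253.NR.RenC 2 c p ∧ c ∈ multibrotSet 2 := by
    rintro p ⟨hp, U, V, hUV, h0⟩
    exact (pl_of_quad hUV).renC (by omega) h0
  obtain ⟨p₀, hp₀⟩ := h.nonempty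
  refine ⟨(h1 p₀ hp₀).2, fun N => ?_⟩
  obtain ⟨p, hp, hpN⟩ := h.exists_gt N
  exact ⟨p, hpN.le, (h1 p hp).1⟩

theorem often_eq : Often = Pool.Agent.H206.PR 2 (1 / 252) := by
  ext x
  have h1 : {n : ℕ | ∃ c l m : ℂ, Perfect 2 (1 / 252) n c l m ∧ x ∈ smallCopy 2 n c l m} =
      {n : ℕ | ∃ c l m : ℂ, Pool.Agent.H206.Perf 2 (1 / 252) n c l m ∧
        x ∈ Pool.Agent.H206.KK 2 n c l m} := by
    ext n
    constructor
    · rintro ⟨c, l, m, ⟨a1, a2, a3, a4, a5⟩, a6⟩
      exact ⟨c, l, m, ⟨a1, a2, a3, a4, a5⟩, a6⟩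
    · rintro ⟨c, l, m, ⟨a1, a2, a3, a4, a5⟩, a6⟩
      exact ⟨c, l, m, ⟨a1, a2, a3, a4, a5⟩, a6⟩
  unfold Often Pool.Agent.H206.PR
  simp only [mem_ofPred_eq]
  rw [h1]

theorem often_IR {x : ℂ} (hx : x ∈ Often) : x ∈ IR := by
  have h1 : ({n : ℕ | ∃ c l m : ℂ, Perfect 2 (1 / 252) n c l m ∧ x ∈ smallCopy 2 n c l m} \
      Set.Iio 2).Infinite := Set.Infinite.sdiff hx (Set.finite_Iio 2)
  refine h1.mono ?_
  rintro n ⟨⟨c, l, m, ⟨a1, a2, a3, a4, a5⟩, a6⟩, hn⟩
  have hP : Pool.Agent.H206.Perf 2 (1 / (4 * (4 + 3 ^ 2 + ((2 : ℕ) : ℝ) * 5 ^ 2))) n c l m := by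
    rw [← eps_eq]
    exact ⟨a1, a2, a3, a4, a5⟩
  obtain ⟨H1, H2⟩ := Pool.Agent.H206.PL_of_perf le_rfl n c l m hP x a6
  exact ⟨not_lt.1 hn, _, _, quad_of_pl H1, H2⟩

/-- **Theorem.** (A) The parameters in infinitely many perfect copies. (B) The existence of infinitely
renormalizable parameters with prescribed coordinates in the copies. (C) The existence of such
parameters with a prescribed limit set of the coordinates. -/
theorem result :
    -- (A)
    (∀ x ∈ Often, x ∈ IR ∧ x ∈ frontier (multibrotSet 2) ∧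
      ∀ y : ℂ, (∀ (n : ℕ) (c l m : ℂ), Perfect 2 (1 / 252) n c l m → x ∈ smallCopy 2 n c l m →
        y ∈ smallCopy 2 n c l m) → y = x) ∧
    volume Often = 0 ∧
    (∃ ψ : ℂ → ℂ, IsExteriorMap (multibrotSet 2) ψ) ∧
    ∀ ψ : ℂ → ℂ, IsExteriorMap (multibrotSet 2) ψ →
      ∀ p ∈ frontier (multibrotSet 2), ∀ r : ℝ, 0 < r →
        -- (B)
        (∀ a : ℕ → ℂ, (∀ k, a k ∈ frontier (multibrotSet 2)) →
          ¬ {x : ℂ | ‖x - p‖ < r ∧ Good ψ x ∧ ∃ (n : ℕ → ℕ) (c l m : ℕ → ℂ), Tower x n c l m ∧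
            ∀ k : ℕ, ‖(x - c k) / l k - a k‖ ≤ 1 / ((k : ℝ) + 1)}.Countable) ∧
        -- (C)
        ∀ F ⊆ frontier (multibrotSet 2), IsClosed F → F.Nonempty →
          ¬ {x : ℂ | ‖x - p‖ < r ∧ Good ψ x ∧ ∃ (n : ℕ → ℕ) (c l m : ℕ → ℂ), Tower x n c l m ∧
            {κ | MapClusterPt κ atTop fun k => (x - c k) / l k} = F}.Countable := by
  have hMc := (Pool.Agent.H712R2.isCompact_multibrot (d := 2) le_rfl).isClosed
  have h252 : 3 * 3 ^ 2 ≤ 1 / ((1 : ℝ) / 252) := by norm_num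
  have h252' : (0 : ℝ) < 1 / 252 := by norm_num
  have hoM : ∀ x ∈ Often, x ∈ multibrotSet 2 := fun x hx => (big_of_IR (often_IR hx)).1
  have hB : ∀ ψ : ℂ → ℂ, IsExteriorMap (multibrotSet 2) ψ →
      ∀ p ∈ frontier (multibrotSet 2), ∀ r : ℝ, 0 < r →
        ∀ a : ℕ → ℂ, (∀ k, a k ∈ frontier (multibrotSet 2)) →
          ¬ {x : ℂ | ‖x - p‖ < r ∧ Good ψ x ∧ ∃ (n : ℕ → ℕ) (c l m : ℕ → ℂ), Tower x n c l m ∧
            ∀ k : ℕ, ‖(x - c k) / l k - a k‖ ≤ 1 / ((k : ℝ) + 1)}.Countable := by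
    intro ψ hψ p hp r hr a ha hcount
    refine Pool.Agent.H206.limits2 le_rfl ha hψ hp hr (hcount.mono ?_)
    rintro x ⟨hxp, u, hu⟩
    have hfr := hu.frontier
    have hxM : x ∈ multibrotSet 2 := hMc.frontier_subset hfr
    have hOft : x ∈ Often := by
      rw [often_eq]
      exact hu.PR h252'
    have hsmall : ∀ (k : ℕ) (y : ℂ), y ∈ Pool.Agent.H206.KK 2 (u k).1 (u k).2.1 (u k).2.2.1
        (u k).2.2.2 → ‖y - x‖ ≤ 2 / ((k : ℝ) + 1) := by
      intro k y hy
      obtain ⟨b, ρ, -, -, h3, h4, -⟩ := (hu.fine k).fine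
      have h5 := h4 hy
      have h6 := h4 (hu.mem k)
      rw [mem_ball, dist_eq_norm] at h5 h6
      have h7 : ‖y - x‖ ≤ ‖y - b‖ + ‖x - b‖ := by
        have e : y - x = (y - b) - (x - b) := by ring
        rw [e]
        exact norm_sub_le _ _
      have h8 : 2 / ((k : ℝ) + 1) = 1 / ((k : ℝ) + 1) + 1 / ((k : ℝ) + 1) := by ring
      linarith
    refine ⟨hxp, ⟨often_IR hOft, hfr, fun Γ h1 h2 h3 => hu.conn h2 (fun t ht => big_of_IR (h1 ht)) h3,
      fun η hη => Pool.Agent.H206.lc_of_fine hxM hu.fineAt hη,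
      ⟨Pool.Agent.H206.exists_imp hψ hfr hMc, fun ζ hζ hx =>
        Pool.Agent.H206.imp_of_fine hu.fineAt hζ hx⟩, fun η hη => hu.area hη, ?_⟩, ?_⟩
    · obtain ⟨g1, g2, -⟩ := Pool.Agent.Y736.RN.not_big_flat le_rfl hψ hxM (hu.notBig le_rfl hψ)
      exact ⟨g1, g2⟩
    · refine ⟨fun k => (u k).1, fun k => (u k).2.1, fun k => (u k).2.2.1, fun k => (u k).2.2.2,
        ⟨fun k => ⟨hu.dvd k, hu.lt k⟩, fun k => ?_, fun k => ⟨hu.mem k, hu.sub k⟩, ?_⟩, hu.tip⟩
      · obtain ⟨h1, h2, h3, h4, h5⟩ := hu.perf k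
        exact ⟨h1, h2, h3, h4, h5⟩
      · refine Set.eq_singleton_iff_unique_mem.2 ⟨mem_iInter.2 hu.mem, fun y hy => ?_⟩
        have hy' := mem_iInter.1 hy
        by_contra hne
        have h0 : 0 < ‖y - x‖ := norm_pos_iff.2 (sub_ne_zero.2 hne)
        obtain ⟨k, hk⟩ := exists_nat_gt (2 / ‖y - x‖)
        have h1 := hsmall k y (hy' k)
        rw [div_lt_iff₀ h0] at hk
        rw [le_div_iff₀ (by positivity)] at h1
        nlinarith
  refine ⟨fun x hx => ⟨often_IR hx, ?_, fun y hy => ?_⟩, ?_, ?_, fun ψ hψ p hp r hr =>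
    ⟨hB ψ hψ p hp r hr, fun F hF hFc hFn hcount => ?_⟩⟩
  · rw [often_eq] at hx
    exact Pool.Agent.H206.PR_front le_rfl h252' h252 hx (hoM x (by rw [often_eq]; exact hx))
  · by_contra hne
    have h0 : 0 < ‖y - x‖ := norm_pos_iff.2 (sub_ne_zero.2 hne)
    rw [often_eq] at hx
    obtain ⟨n, c, l, m, -, hP, hxK, hl⟩ := Pool.Agent.H206.PR_small le_rfl h252' h252 hx
      (η := ‖y - x‖ / 18) (by positivity) 0
    have h1 := Pool.Agent.H206.KK_dist hP.sc.1 hxK
    have hyK : y ∈ smallCopy 2 n c l m := by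
      obtain ⟨a1, a2, a3, a4, a5⟩ := hP
      exact hy n c l m ⟨a1, a2, a3, a4, a5⟩ hxK
    have h2 := Pool.Agent.H206.KK_dist hP.sc.1 hyK
    have h3 : ‖y - x‖ ≤ ‖y - c‖ + ‖x - c‖ := by
      have e : y - x = (y - c) - (x - c) := by ring
      rw [e]
      exact norm_sub_le _ _
    have h4 : (3 : ℝ) ^ 2 = 9 := by norm_num
    rw [h4] at h1 h2
    linarith
  · rw [often_eq]
    exact Pool.Agent.H206.PR_null le_rfl h252' h252 (fun x hx => hoM x (by rw [often_eq]; exact hx))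
  · obtain ⟨β, hβ⟩ := Pool.Agent.H713R2.exists_beta (d := 2) le_rfl
    exact ⟨_, Pool.Agent.H713R2.exteriorMap_of_beta hβ⟩
  · obtain ⟨a, ha, hab⟩ := Pool.Agent.H206.seq_of_closed hFc hFn
    refine hB ψ hψ p hp r hr a (fun k => hF (ha k)) (hcount.mono ?_)
    rintro x ⟨h1, h2, n, c, l, m, h3, h4⟩
    refine ⟨h1, h2, n, c, l, m, h3, hab _ ?_⟩
    rw [tendsto_zero_iff_norm_tendsto_zero]
    exact squeeze_zero (fun k => norm_nonneg _) h4 tendsto_one_div_add_atTop_nhds_zero_nat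

end Pool.Agent.Results.MP_b511e9_an.PrescribedLimits
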